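import Pool.Agent.X123.Spec

/-!
# Multiplicative Lagrange spectra of non-hyperbolic polynomials are dense but not closed
-/

set_option autoImplicit false

namespace Pool.Agent.X123.Dense

open Polynomial Filter Topology Pool.Agent.X123.Shift Pool.Agent.X123.Spec NumberField

/-- elements of the ring of integers that are small at all places except those where `θ` is
large -/
theorem exists_small (K : Type*) [Field K] [NumberField K] (θ : K) (w₀ : InfinitePlace K)
    (hw₀ : 1 < w₀ θ) {δ : ℝ} (hδ : 0 < δ) :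
    ∃ a : 𝓞 K, a ≠ 0 ∧ ∀ w : InfinitePlace K, w θ ≤ 1 → w a < δ := by
  classical
  set δ' : NNReal := ⟨δ, hδ.le⟩ with hδ'
  have hδ0 : 0 < δ' := hδ
  set c : NNReal := ∏ w : InfinitePlace K, (if w θ ≤ 1 then δ' else 1) ^ w.mult with hc
  have hc0 : 0 < c := by
    rw [hc]
    refine Finset.prod_pos fun w _ => ?_
    split_ifs
    · exact pow_pos hδ0 _
    · simp
  set q : ENNReal := mixedEmbedding.minkowskiBound K 1 /
    (mixedEmbedding.convexBodyLTFactor K * c : NNReal) with hq
  have hF : mixedEmbedding.convexBodyLTFactor K * c ≠ 0 :=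
    mul_ne_zero (mixedEmbedding.convexBodyLTFactor_ne_zero K) hc0.ne'
  have hqt : q < ⊤ := by
    rw [hq]
    refine ENNReal.div_lt_top (mixedEmbedding.minkowskiBound_lt_top K 1).ne ?_
    exact_mod_cast hF
  set B : NNReal := q.toNNReal + 1 with hB
  have hB1 : 1 ≤ B := by rw [hB]; exact le_add_self
  have hqB : q < B := by
    rw [hB, ENNReal.coe_add, ENNReal.coe_toNNReal hqt.ne]
    exact ENNReal.lt_add_right hqt.ne (by simp)
  set f : InfinitePlace K → NNReal := fun w => if w θ ≤ 1 then δ' else B with hf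
  have hprod : c * B ≤ ∏ w, f w ^ w.mult := by
    have e : ∏ w, f w ^ w.mult = c * ∏ w : InfinitePlace K, (if w θ ≤ 1 then 1 else B) ^ w.mult := by
      rw [hc, ← Finset.prod_mul_distrib]
      refine Finset.prod_congr rfl fun w _ => ?_
      rw [hf, ← mul_pow]
      simp only
      split_ifs <;> simp
    rw [e]
    refine mul_le_mul_of_nonneg_left ?_ (zero_le)
    have h1 : (if w₀ θ ≤ 1 then (1 : NNReal) else B) ^ w₀.mult ≤
        ∏ w : InfinitePlace K, (if w θ ≤ 1 then (1 : NNReal) else B) ^ w.mult := by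
      refine Finset.single_le_prod' (f := fun w : InfinitePlace K =>
        (if w θ ≤ 1 then (1 : NNReal) else B) ^ w.mult) ?_ (Finset.mem_univ w₀)
      intro w _
      apply one_le_pow₀
      split_ifs
      · exact le_rfl
      · exact hB1
    rw [if_neg (by linarith)] at h1
    exact (le_self_pow₀ hB1 (InfinitePlace.mult_pos).ne').trans h1
  obtain ⟨a, ha, h⟩ := mixedEmbedding.exists_ne_zero_mem_ringOfIntegers_lt K (f := f) (by
    rw [mixedEmbedding.convexBodyLT_volume]
    have h1 : mixedEmbedding.minkowskiBound K 1 <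
        (B : ENNReal) * (mixedEmbedding.convexBodyLTFactor K * c : NNReal) := by
      rw [← ENNReal.div_lt_iff (Or.inl (by exact_mod_cast hF)) (Or.inl ENNReal.coe_ne_top)]
      exact hqB
    refine h1.trans_le ?_
    rw [← ENNReal.coe_mul, ← ENNReal.coe_mul, ENNReal.coe_le_coe]
    calc B * (mixedEmbedding.convexBodyLTFactor K * c)
        = mixedEmbedding.convexBodyLTFactor K * (c * B) := by ring
      _ ≤ _ := mul_le_mul_of_nonneg_left hprod zero_le)
  refine ⟨a, ha, fun w hw => ?_⟩
  have := h w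
  rw [hf] at this
  simp only [if_pos hw] at this
  exact this

section

variable {P : ℤ[X]}

/-- the roots of modulus at most `1` -/
noncomputable def innerRoots (P : ℤ[X]) : Finset ℂ := by
  classical exact (P.aroots ℂ).toFinset.filter (fun z => ¬ 1 < ‖z‖)

theorem mem_inner (hP : P ≠ 0) {z : ℂ} : z ∈ innerRoots P ↔ aeval z P = 0 ∧ ‖z‖ ≤ 1 := by
  rw [innerRoots, Finset.mem_filter, Multiset.mem_toFinset, mem_aroots]
  simp [hP]

/-- rational polynomials `h` with `h(θ)` integral, small at the inner roots -/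
theorem exists_poly_aux (K : Type*) [Field K] [NumberField K] (θ : K) (hP : P.Monic)
    (hθP : aeval θ P = 0) (hgen : ∀ a : K, ∃ h : ℚ[X], aeval θ h = a)
    (hev : ∀ z : ℂ, aeval z P = 0 → ∃ σ : K →ₐ[ℚ] ℂ, σ θ = z)
    (hexp : (expRoots P).Nonempty) {δ : ℝ}
    (hδ : 0 < δ) : ∃ h : ℚ[X], (∀ z : ℂ, aeval z P = 0 → aeval z h ≠ 0) ∧
      (∀ z ∈ innerRoots P, ‖aeval z h‖ < δ) ∧
      (∀ n : ℕ, ∃ t : ℤ, (t : ℂ) = ∑ z ∈ expRoots P, aeval z h * z ^ n +
        ∑ z ∈ innerRoots P, aeval z h * z ^ n) := by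
  have hθint : IsIntegral ℤ θ := ⟨P, hP, hθP⟩
  have hroot : ∀ σ : K →ₐ[ℚ] ℂ, aeval (σ θ) P = 0 := by
    intro σ
    have h1 : aeval (σ θ) P = σ (aeval θ P) := by
      have := Polynomial.aeval_algHom_apply (σ.restrictScalars ℤ) θ P
      exact this
    rw [h1, hθP, map_zero]
  obtain ⟨z₀, hz₀⟩ := hexp
  rw [mem_expRoots hP.ne_zero] at hz₀
  obtain ⟨σ₀, hσ₀⟩ := hev z₀ hz₀.1
  obtain ⟨a, ha0, ha⟩ := exists_small K θ (InfinitePlace.mk (σ₀ : K →+* ℂ)) (by
    rw [InfinitePlace.apply]
    change 1 < ‖σ₀ θ‖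
    rw [hσ₀]; exact hz₀.2) hδ
  obtain ⟨h, hh⟩ := hgen (a : K)
  have hσh : ∀ σ : K →ₐ[ℚ] ℂ, σ (a : K) = aeval (σ θ) h := by
    intro σ
    rw [← hh]
    exact (Polynomial.aeval_algHom_apply σ θ h).symm
  refine ⟨h, ?_, ?_, ?_⟩
  · intro z hz h0
    obtain ⟨σ, rfl⟩ := hev z hz
    rw [← hσh] at h0
    have h1 : (a : K) = 0 := by
      apply σ.toRingHom.injective
      rw [map_zero]; exact h0
    exact ha0 (by exact_mod_cast h1)
  · intro z hz
    rw [mem_inner hP.ne_zero] at hz
    obtain ⟨σ, rfl⟩ := hev z hz.1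
    rw [← hσh]
    have := ha (InfinitePlace.mk (σ : K →+* ℂ)) (by
      rw [InfinitePlace.apply]; exact hz.2)
    rw [InfinitePlace.apply] at this
    exact this
  · intro n
    have hint : IsIntegral ℤ ((a : K) * θ ^ n) := (a.2).mul (hθint.pow n)
    have h1 := Algebra.isIntegral_trace (L := ℚ) hint
    obtain ⟨t, ht⟩ := IsIntegrallyClosed.isIntegral_iff.1 h1
    refine ⟨t, ?_⟩
    have h2 := trace_eq_sum_embeddings (K := ℚ) (L := K) ℂ (x := (a : K) * θ ^ n)
    rw [← ht] at h2
    have h3 : (t : ℂ) = ∑ σ : K →ₐ[ℚ] ℂ, σ ((a : K) * θ ^ n) := by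
      rw [← h2]
      simp
    rw [h3]
    have hdisj : Disjoint (expRoots P) (innerRoots P) := by
      rw [Finset.disjoint_left]
      intro z hz1 hz2
      rw [mem_expRoots hP.ne_zero] at hz1
      rw [mem_inner hP.ne_zero] at hz2
      linarith [hz1.2, hz2.2]
    classical
    rw [← Finset.sum_union hdisj]
    refine Finset.sum_bij (fun σ _ => σ θ) ?_ ?_ ?_ ?_
    · intro σ _
      rw [Finset.mem_union, mem_expRoots hP.ne_zero, mem_inner hP.ne_zero]
      rcases lt_or_ge 1 ‖σ θ‖ with h4 | h4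
      · exact Or.inl ⟨hroot σ, h4⟩
      · exact Or.inr ⟨hroot σ, h4⟩
    · intro σ _ τ _ h4
      refine AlgHom.ext fun b => ?_
      obtain ⟨h5, rfl⟩ := hgen b
      rw [← Polynomial.aeval_algHom_apply, ← Polynomial.aeval_algHom_apply]
      exact congrArg (fun x => aeval x h5) h4
    · intro z hz
      rw [Finset.mem_union, mem_expRoots hP.ne_zero, mem_inner hP.ne_zero] at hz
      obtain ⟨σ, hσ⟩ := hev z (by rcases hz with h4 | h4 <;> exact h4.1)
      exact ⟨σ, Finset.mem_univ _, hσ⟩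
    · intro σ _
      rw [map_mul, map_pow, hσh]

theorem exists_poly (hP : P.Monic) (hirr : Irreducible P) (hexp : (expRoots P).Nonempty) {δ : ℝ}
    (hδ : 0 < δ) : ∃ h : ℚ[X], (∀ z : ℂ, aeval z P = 0 → aeval z h ≠ 0) ∧
      (∀ z ∈ innerRoots P, ‖aeval z h‖ < δ) ∧
      (∀ n : ℕ, ∃ t : ℤ, (t : ℂ) = ∑ z ∈ expRoots P, aeval z h * z ^ n +
        ∑ z ∈ innerRoots P, aeval z h * z ^ n) := by
  have hpi : Irreducible (P.map (algebraMap ℤ ℚ)) :=
    (hP.irreducible_iff_irreducible_map_fraction_map).1 hirr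
  have : Fact (Irreducible (P.map (algebraMap ℤ ℚ))) := ⟨hpi⟩
  refine exists_poly_aux (AdjoinRoot (P.map (algebraMap ℤ ℚ)))
    (AdjoinRoot.root (P.map (algebraMap ℤ ℚ))) hP ?_ ?_ ?_ hexp hδ
  · have h1 := AdjoinRoot.eval₂_root (P.map (algebraMap ℤ ℚ))
    rw [eval₂_map] at h1
    rw [aeval_def, ← h1]
    congr 1
  · intro a
    obtain ⟨h, hh⟩ := AdjoinRoot.mk_surjective a
    refine ⟨h, ?_⟩
    rw [← hh, ← AdjoinRoot.aeval_eq, aeval_def, aeval_def]
    congr 1
  · intro z hz
    have h1 : eval₂ (algebraMap ℚ ℂ) z (P.map (algebraMap ℤ ℚ)) = 0 := by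
      rw [eval₂_map, ← IsScalarTower.algebraMap_eq]
      exact hz
    refine ⟨(AdjoinRoot.lift (algebraMap ℚ ℂ) z h1).toRatAlgHom, ?_⟩
    exact AdjoinRoot.lift_root h1

/-- for a non-hyperbolic polynomial there are tuples of constants with small positive upper
limit -/
theorem exists_tuple (hP : P.Monic) (hirr : Irreducible P) (hexp : (expRoots P).Nonempty)
    (hun : ∃ z : ℂ, aeval z P = 0 ∧ ‖z‖ = 1) {η : ℝ} (hη : 0 < η) (hη2 : η ≤ 1 / 2) :
    ∃ g : ℂ → ℂ[X], IsTuple P 0 g ∧
      0 < limsup (fun n : ℕ => distInt (seq P g n).re) atTop ∧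
      limsup (fun n : ℕ => distInt (seq P g n).re) atTop ≤ η := by
  obtain ⟨z₁, hz₁, hz₁'⟩ := hun
  have hin : z₁ ∈ innerRoots P := (mem_inner hP.ne_zero).2 ⟨hz₁, hz₁'.le⟩
  have hcard : 0 < (innerRoots P).card := Finset.card_pos.2 ⟨_, hin⟩
  have hcard' : (0 : ℝ) < (innerRoots P).card := by exact_mod_cast hcard
  obtain ⟨h, hne, hsm, htr⟩ := exists_poly hP hirr hexp
    (show 0 < η / (innerRoots P).card by positivity)
  set g : ℂ → ℂ[X] := fun z => C (aeval z h) with hg
  have hgt : IsTuple P 0 g := by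
    intro z _
    refine ⟨by rw [hg]; simp, ?_⟩
    rw [hg]
    simp only [map_C]
    congr 1
    rw [aeval_def, aeval_def, hom_eval₂]
    congr 1
    exact Subsingleton.elim _ _
  set w : ℕ → ℂ := fun n => ∑ z ∈ innerRoots P, aeval z h * z ^ n with hw
  have hseq : ∀ n, ∃ t : ℤ, seq P g n = t - w n := by
    intro n
    obtain ⟨t, ht⟩ := htr n
    refine ⟨t, ?_⟩
    rw [ht, hw]
    simp only [add_sub_cancel_right]
    unfold Spec.seq
    refine Finset.sum_congr rfl fun z _ => ?_
    rw [hg, eval_C]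
  have hwb : ∀ n, ‖w n‖ < η := by
    intro n
    rw [hw]
    calc ‖∑ z ∈ innerRoots P, aeval z h * z ^ n‖ ≤ ∑ z ∈ innerRoots P, ‖aeval z h * z ^ n‖ :=
          norm_sum_le _ _
      _ < ∑ z ∈ innerRoots P, η / (innerRoots P).card := by
          refine Finset.sum_lt_sum_of_nonempty ⟨_, hin⟩ fun z hz => ?_
          rw [norm_mul, norm_pow]
          have h1 := hsm z hz
          have h2 : ‖z‖ ^ n ≤ 1 := pow_le_one₀ (norm_nonneg _) ((mem_inner hP.ne_zero).1 hz).2
          have h3 := norm_nonneg (aeval z h)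
          have h4 : 0 ≤ ‖z‖ ^ n := by positivity
          nlinarith
      _ = η := by
          rw [Finset.sum_const, nsmul_eq_mul]
          field_simp
  have hwr : ∀ n, |(w n).re| = ‖w n‖ := by
    intro n
    obtain ⟨t, ht⟩ := hseq n
    have h1 := seq_real hP.ne_zero hgt n
    have h2 : w n = (((t : ℝ) - (seq P g n).re : ℝ) : ℂ) := by
      push_cast
      rw [h1, ht]
      ring
    rw [h2, Complex.ofReal_re, Complex.norm_real, Real.norm_eq_abs]
  have hd : ∀ n, distInt (seq P g n).re = ‖w n‖ := by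
    intro n
    obtain ⟨t, ht⟩ := hseq n
    have h1 : (seq P g n).re = t - (w n).re := by
      rw [ht]
      simp
    have h2 := hwb n
    rw [← hwr n] at h2 ⊢
    rw [abs_lt] at h2
    have h3 : round ((t : ℝ) - (w n).re) = t := by
      rw [round_eq, Int.floor_eq_iff]
      constructor <;> linarith
    unfold distInt
    rw [h1, h3]
    rw [show (t : ℝ) - (w n).re - t = -(w n).re by ring, abs_neg]
  refine ⟨g, hgt, ?_, ?_⟩
  · -- positivity
    set F : ℂ[X] := ∏ z ∈ (innerRoots P).erase z₁, (X - C z) with hF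
    have hFz : F.eval z₁ ≠ 0 := by
      rw [hF, eval_prod, Finset.prod_ne_zero_iff]
      intro z hz
      rw [eval_sub, eval_X, eval_C, sub_ne_zero]
      exact fun h => (Finset.ne_of_mem_erase hz) h.symm
    have e1 : ∀ (q : ℂ[X]) (c z : ℂ), (aeval E q) (ep (C c) z) = ep (C (c * q.eval z)) z := by
      intro q c z
      ext n
      rw [aeval_E]
      simp only [ep, eval_C]
      rw [eval_eq_sum_range, Finset.mul_sum, Finset.sum_mul]
      refine Finset.sum_congr rfl fun j _ => ?_
      rw [pow_add]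
      ring
    have h2 : (aeval E F) w = ep (C (aeval z₁ h * F.eval z₁)) z₁ := by
      have e : w = ∑ z ∈ innerRoots P, ep (C (aeval z h)) z := by
        ext n
        rw [Finset.sum_apply, hw]
        refine Finset.sum_congr rfl fun z _ => ?_
        rw [ep, eval_C]
      rw [e, map_sum, ← Finset.add_sum_erase _ _ hin, e1, Finset.sum_eq_zero, add_zero]
      intro z hz
      have h3 : F.eval z = 0 := by
        rw [hF, eval_prod]
        exact Finset.prod_eq_zero hz (by simp)
      rw [e1, h3, mul_zero, C_0, ep_zero]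
    set κ : ℝ := ‖aeval z₁ h * F.eval z₁‖ with hκ
    have hκ0 : 0 < κ := by
      rw [hκ, norm_pos_iff]
      exact mul_ne_zero (hne z₁ hz₁) hFz
    set M : ℝ := ∑ j ∈ Finset.range (F.natDegree + 1), ‖F.coeff j‖ with hM
    have hM0 : 0 ≤ M := Finset.sum_nonneg fun _ _ => norm_nonneg _
    have hc0 : 0 < κ / (M + 1) := by positivity
    refine hc0.trans_le (le_limsup_of_frequently_le ?_ (bdd _))
    rw [frequently_atTop]
    intro N
    by_contra hcon
    push Not at hcon
    have h4 : ∀ n ≥ N, ‖w n‖ ≤ κ / (M + 1) := fun n hn => by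
      have := hcon n hn
      rw [hd] at this
      exact this.le
    have h5 := aeval_bounded F h4 N le_rfl
    rw [h2] at h5
    have h6 : ‖ep (C (aeval z₁ h * F.eval z₁)) z₁ N‖ = κ := by
      rw [ep, eval_C, norm_mul, norm_pow, hz₁', one_pow, mul_one]
    rw [h6, ← hM] at h5
    have h7 : M * (κ / (M + 1)) < κ := by
      rw [mul_div_assoc', div_lt_iff₀ (by positivity)]
      nlinarith
    linarith
  · refine limsup_le_of_le (cobdd _) (Eventually.of_forall fun n => ?_)
    rw [hd]
    exact (hwb n).le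

end

theorem mono_k {P : ℤ[X]} (k : ℕ) : spectrum P 0 ⊆ spectrum P k := by
  rintro t ⟨g, hg, rfl⟩
  exact ⟨g, fun z hz => ⟨(hg z hz).1.trans (Nat.zero_le _), (hg z hz).2⟩, rfl⟩

theorem distInt_mul {x : ℝ} {m : ℕ} (h : m * distInt x < 1 / 2) :
    distInt (m * x) = m * distInt x := by
  have h1 : round ((m : ℝ) * x) = m * round x := by
    rw [round_eq, Int.floor_eq_iff]
    unfold distInt at h
    have h2 : |(m : ℝ) * (x - round x)| < 1 / 2 := by
      rw [abs_mul, Nat.abs_cast]; exact h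
    rw [abs_lt] at h2
    push_cast
    constructor <;> linarith
  unfold distInt
  rw [h1]
  push_cast
  rw [← mul_sub, abs_mul, Nat.abs_cast]

theorem limsup_mul {x : ℕ → ℝ} {m : ℕ} (h : m * limsup (fun n => distInt (x n)) atTop < 1 / 2) :
    limsup (fun n => distInt (m * x n)) atTop = m * limsup (fun n => distInt (x n)) atTop := by
  rcases Nat.eq_zero_or_pos m with rfl | hm
  · have e : (fun n => distInt (((0 : ℕ) : ℝ) * x n)) = fun _ => 0 := by
      ext n
      simp [distInt]
    rw [e]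
    simp
  have hm' : (0 : ℝ) < m := by exact_mod_cast hm
  set v := limsup (fun n => distInt (x n)) atTop with hv
  obtain ⟨η, h1, h2⟩ := exists_between (show v < 1 / 2 / m by rwa [lt_div_iff₀ hm', mul_comm])
  have h3 := eventually_lt_of_limsup_lt (hv ▸ h1) (bdd x)
  have h4 : (fun n => distInt (m * x n)) =ᶠ[atTop] fun n => m * distInt (x n) := by
    filter_upwards [h3] with n hn
    refine distInt_mul ?_
    have := hn.trans h2
    rwa [lt_div_iff₀ hm', mul_comm] at this
  rw [limsup_congr h4]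
  have hmono : Monotone (fun y : ℝ => (m : ℝ) * y) := fun a b hab =>
    mul_le_mul_of_nonneg_left hab hm'.le
  have := hmono.map_limsup_of_continuousAt (fun n => distInt (x n))
    (by fun_prop) (bdd x) (cobdd x)
  exact this.symm

/-- the spectrum of a non-hyperbolic polynomial is dense in `[0, 1/2]` -/
theorem dense {P : ℤ[X]} (hP : P.Monic) (hirr : Irreducible P) (hexp : (expRoots P).Nonempty)
    (hun : ∃ z : ℂ, aeval z P = 0 ∧ ‖z‖ = 1) (k : ℕ) :
    Set.Icc 0 (1 / 2) ⊆ closure (spectrum P k) := by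
  have h1 : Set.Ico (0 : ℝ) (1 / 2) ⊆ closure (spectrum P k) := by
    rintro t ⟨ht0, ht1⟩
    rw [Metric.mem_closure_iff]
    intro ε hε
    obtain ⟨g, hg, hv0, hv1⟩ := exists_tuple hP hirr hexp hun
      (show 0 < min (min (ε / 2) (1 / 2)) ((1 / 2 - t) / 2) by
        refine lt_min (lt_min (by linarith) (by norm_num)) (by linarith))
      ((min_le_left _ _).trans (min_le_right _ _))
    set v := limsup (fun n : ℕ => distInt (seq P g n).re) atTop with hv
    have hv2 : v ≤ ε / 2 := hv1.trans ((min_le_left _ _).trans (min_le_left _ _))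
    set m := ⌊t / v⌋₊ with hm
    have h2 : (m : ℝ) * v ≤ t := by
      have := Nat.floor_le (show 0 ≤ t / v by positivity)
      rwa [le_div_iff₀ hv0] at this
    have h3 : t < (m + 1) * v := by
      have := Nat.lt_floor_add_one (t / v)
      rwa [div_lt_iff₀ hv0] at this
    refine ⟨m * v, mono_k k ⟨fun z => C (m : ℂ) * g z, ?_, ?_⟩, ?_⟩
    · intro z hz
      refine ⟨(natDegree_C_mul_le _ _).trans (hg z hz).1, ?_⟩
      change C (m : ℂ) * g (starRingEnd ℂ z) = (C (m : ℂ) * g z).map (starRingEnd ℂ)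
      rw [Polynomial.map_mul, map_C, ← (hg z hz).2, Complex.conj_natCast]
    · have e : (fun n : ℕ => distInt (seq P (fun z => C (m : ℂ) * g z) n).re) =
          fun n : ℕ => distInt (m * (seq P g n).re) := by
        ext n
        congr 1
        have : seq P (fun z => C (m : ℂ) * g z) n = m * seq P g n := by
          unfold Spec.seq
          rw [Finset.mul_sum]
          refine Finset.sum_congr rfl fun z _ => ?_
          rw [eval_mul, eval_C]
          ring
        rw [this, ← Complex.ofReal_natCast, Complex.re_ofReal_mul]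
      rw [e, limsup_mul (x := fun n => (seq P g n).re) (by rw [← hv]; linarith)]
    · rw [Real.dist_eq, abs_of_nonneg (by linarith)]
      linarith
  have h2 := closure_mono h1
  rw [closure_closure, closure_Ico (by norm_num)] at h2
  exact h2

theorem uncountable_part {S : Set ℝ} {c : ℝ} (hc : 0 < c) (hcount : {t ∈ S | t < c}.Countable) :
    ¬ Set.Icc (0 : ℝ) (1 / 2) ⊆ S := by
  intro h
  have h1 : Set.Ioo (0 : ℝ) (min c (1 / 2)) ⊆ {t ∈ S | t < c} := by
    rintro t ⟨h1, h2⟩
    exact ⟨h ⟨h1.le, (h2.trans_le (min_le_right _ _)).le⟩, h2.trans_le (min_le_left _ _)⟩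
  have h2 := hcount.mono h1
  rw [Cardinal.Real.Ioo_countable_iff] at h2
  have : 0 < min c (1 / 2) := lt_min hc (by norm_num)
  linarith

theorem len_pos {F : ℤ[X]} (hF : F.Monic) : 0 < len F := by
  unfold len
  have h1 : (F.coeff F.natDegree).natAbs ≤
      ∑ j ∈ Finset.range (F.natDegree + 1), (F.coeff j).natAbs :=
    Finset.single_le_sum (f := fun j => (F.coeff j).natAbs) (fun _ _ => Nat.zero_le _)
      (Finset.self_mem_range_succ _)
  rw [hF.coeff_natDegree] at h1
  exact h1

/-- for a monic polynomial the spectrum never contains `[0, 1/2]` -/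
theorem not_Icc {P : ℤ[X]} (hP : P.Monic) (k : ℕ) : ¬ Set.Icc (0 : ℝ) (1 / 2) ⊆ spectrum P k := by
  have h0 : (0 : ℝ) < len (P ^ (k + 1)) := by exact_mod_cast len_pos (hP.pow (k + 1))
  exact uncountable_part (by positivity) (countable_low hP k)

/-- for a non-hyperbolic polynomial the spectrum is not closed -/
theorem not_closed {P : ℤ[X]} (hP : P.Monic) (hirr : Irreducible P) (hexp : (expRoots P).Nonempty)
    (hun : ∃ z : ℂ, aeval z P = 0 ∧ ‖z‖ = 1) (k : ℕ) : ¬ IsClosed (spectrum P k) := by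
  intro hc
  have h1 := dense hP hirr hexp hun k
  rw [hc.closure_eq] at h1
  exact not_Icc hP k h1

end Pool.Agent.X123.Dense
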