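import Pool.Agent.X123.Dense

/-!
# Salem numbers
-/

set_option autoImplicit false

namespace Pool.Agent.X123.Salem

open Polynomial Filter Topology Pool.Agent.X123.Shift Pool.Agent.X123.Spec Pool.Agent.X123.Dense

/-- the polynomial `X^4 - 2 X^3 - 2 X + 1` -/
noncomputable def P4 : ℤ[X] := X ^ 4 - 2 * X ^ 3 - 2 * X + 1

theorem P4_monic : P4.Monic := by
  unfold P4
  monicity!

theorem P4_irr : Irreducible P4 := by
  have h1 : (taylorEquiv (1 : ℤ)) P4 = X ^ 4 + 2 * X ^ 3 - 4 * X - 2 := by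
    change taylor 1 P4 = _
    rw [taylor_apply]
    unfold P4
    simp
    ring
  rw [← MulEquiv.irreducible_iff (taylorEquiv (1 : ℤ)), h1]
  set f : ℤ[X] := X ^ 4 + 2 * X ^ 3 - 4 * X - 2 with hf
  have hdeg : f.natDegree = 4 := by
    rw [hf]; compute_degree!
  have hmon : f.Monic := by
    rw [hf]; monicity!
  have hc : ∀ n, f.coeff n = if n = 0 then -2 else if n = 1 then -4 else if n = 3 then 2 else
      if n = 4 then 1 else 0 := by
    intro n
    rw [hf]
    have e : (X ^ 4 + 2 * X ^ 3 - 4 * X - 2 : ℤ[X]) =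
        X ^ 4 + C 2 * X ^ 3 - C 4 * X - C 2 := by simp
    rw [e]
    simp only [coeff_sub, coeff_add, coeff_X_pow, coeff_C_mul, coeff_X, coeff_C]
    split_ifs <;> omega
  refine irreducible_of_eisenstein_criterion (P := Ideal.span {(2 : ℤ)}) ?_ ?_ ?_ ?_ ?_
    hmon.isPrimitive
  · rw [Ideal.span_singleton_prime (by norm_num)]
    exact Int.prime_two
  · rw [hmon.leadingCoeff, Ideal.mem_span_singleton]
    decide
  · intro n hn
    rw [degree_eq_natDegree hmon.ne_zero, hdeg] at hn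
    have hn' : n < 4 := by exact_mod_cast hn
    rw [Ideal.mem_span_singleton, hc]
    interval_cases n <;> decide
  · rw [degree_eq_natDegree hmon.ne_zero, hdeg]
    norm_num
  · rw [Ideal.span_singleton_pow, Ideal.mem_span_singleton, hc]
    decide

/-- the factorisation over `ℚ(√3)` -/
theorem aeval_P4 (z : ℂ) : aeval z P4 =
    (z ^ 2 - ((1 + √3 : ℝ) : ℂ) * z + 1) * (z ^ 2 - ((1 - √3 : ℝ) : ℂ) * z + 1) := by
  have h : ((√3 : ℝ) : ℂ) ^ 2 = 3 := by
    rw [← Complex.ofReal_pow, Real.sq_sqrt (by norm_num)]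
    norm_num
  unfold P4
  simp only [map_add, map_sub, map_mul, map_pow, aeval_X, map_one, map_ofNat]
  push_cast
  linear_combination (z ^ 2) * h

/-- a Salem number of degree `4` -/
noncomputable def α₀ : ℝ := (1 + √3 + √(2 * √3)) / 2

theorem sqrt3_bd : 1.7 < √3 ∧ √3 < 1.8 := by
  constructor
  · rw [Real.lt_sqrt (by norm_num)]; norm_num
  · rw [Real.sqrt_lt' (by norm_num)]; norm_num

theorem α₀_quad : α₀ ^ 2 - (1 + √3) * α₀ + 1 = 0 := by
  have h3 : √3 ^ 2 = 3 := Real.sq_sqrt (by norm_num)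
  have h4 : √(2 * √3) ^ 2 = 2 * √3 := Real.sq_sqrt (by positivity)
  unfold α₀
  nlinarith

theorem α₀_gt : 2 < α₀ := by
  have h := sqrt3_bd
  have h4 : 1.5 < √(2 * √3) := by
    rw [Real.lt_sqrt (by norm_num)]
    linarith
  unfold α₀
  linarith

theorem aeval_α₀ : aeval ((α₀ : ℝ) : ℂ) P4 = 0 := by
  rw [aeval_P4]
  have : (((α₀ : ℝ) : ℂ) ^ 2 - ((1 + √3 : ℝ) : ℂ) * α₀ + 1) = 0 := by
    have := congrArg (fun x : ℝ => (x : ℂ)) α₀_quad
    push_cast at this ⊢
    exact this
  rw [this, zero_mul]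

/-- roots of `z² - c z + 1` with real `c`, `|c| < 2`, lie on the unit circle -/
theorem unit_of_quad {c : ℝ} (hc : |c| < 2) {z : ℂ} (h : z ^ 2 - (c : ℂ) * z + 1 = 0) :
    ‖z‖ = 1 := by
  have h1 := congrArg Complex.re h
  have h2 := congrArg Complex.im h
  simp only [pow_two, Complex.add_re, Complex.sub_re, Complex.mul_re, Complex.ofReal_re,
    Complex.ofReal_im, Complex.one_re, Complex.zero_re, zero_mul, sub_zero, Complex.add_im,
    Complex.sub_im, Complex.mul_im, Complex.one_im, Complex.zero_im, add_zero] at h1 h2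
  rw [abs_lt] at hc
  have hy : z.im ≠ 0 := by
    intro hy
    rw [hy] at h1
    nlinarith [sq_nonneg (z.re - c / 2)]
  have hx : 2 * z.re = c := by
    have : z.im * (2 * z.re - c) = 0 := by linarith
    rcases mul_eq_zero.1 this with h3 | h3
    · exact absurd h3 hy
    · linarith
  have h4 : ‖z‖ ^ 2 = 1 := by
    rw [← Complex.normSq_eq_norm_sq, Complex.normSq_apply]
    nlinarith
  nlinarith [norm_nonneg z]

/-- the other roots of `P4` lie in the closed unit disc -/
theorem root_P4 {z : ℂ} (h : aeval z P4 = 0) (hz : z ≠ ((α₀ : ℝ) : ℂ)) : ‖z‖ ≤ 1 := by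
  rw [aeval_P4, mul_eq_zero] at h
  rcases h with h | h
  · have h1 : (z - (α₀ : ℝ)) * (z + (α₀ : ℝ) - ((1 + √3 : ℝ) : ℂ)) = 0 := by
      have := congrArg (fun x : ℝ => (x : ℂ)) α₀_quad
      push_cast at this h ⊢
      linear_combination h - this
    rcases mul_eq_zero.1 h1 with h2 | h2
    · exact absurd (sub_eq_zero.1 h2) hz
    · have h3 : z = (((1 + √3) - α₀ : ℝ) : ℂ) := by
        push_cast at h2 ⊢
        linear_combination h2
      have h4 : (1 + √3) - α₀ = 1 / α₀ := by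
        have := α₀_quad
        have h5 := α₀_gt
        rw [eq_div_iff (by linarith)]
        nlinarith
      rw [h3, h4, Complex.norm_real, Real.norm_eq_abs, abs_of_pos (by have := α₀_gt; positivity),
        div_le_one (by have := α₀_gt; linarith)]
      linarith [α₀_gt]
  · refine (unit_of_quad ?_ h).le
    have := sqrt3_bd
    rw [abs_lt]
    constructor <;> linarith

theorem exists_unit : ∃ z : ℂ, aeval z P4 = 0 ∧ ‖z‖ = 1 := by
  obtain ⟨z, hz⟩ := IsAlgClosed.exists_root (X ^ 2 - C ((1 - √3 : ℝ) : ℂ) * X + 1 : ℂ[X]) (by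
    have : (X ^ 2 - C ((1 - √3 : ℝ) : ℂ) * X + 1 : ℂ[X]).degree = 2 := by compute_degree!
    rw [this]
    norm_num)
  have h : z ^ 2 - ((1 - √3 : ℝ) : ℂ) * z + 1 = 0 := by
    simpa [IsRoot.def] using hz
  refine ⟨z, ?_, unit_of_quad ?_ h⟩
  · rw [aeval_P4, h, mul_zero]
  · have := sqrt3_bd
    rw [abs_lt]
    constructor <;> linarith

/-- Salem numbers -/
def IsSalem (α : ℝ) : Prop :=
  1 < α ∧ IsIntegral ℤ α ∧
    (∀ z : ℂ, aeval z (minpoly ℤ α) = 0 → z ≠ (α : ℂ) → ‖z‖ ≤ 1) ∧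
    ∃ z : ℂ, aeval z (minpoly ℤ α) = 0 ∧ ‖z‖ = 1

theorem aeval_real (P : ℤ[X]) (x : ℝ) : aeval (x : ℂ) P = ((aeval x P : ℝ) : ℂ) := by
  have := Polynomial.aeval_algebraMap_apply ℂ x P
  simpa using this

theorem minpoly_α₀ : minpoly ℤ α₀ = P4 := by
  have h0 : aeval α₀ P4 = 0 := by
    have := aeval_α₀
    rw [aeval_real] at this
    exact_mod_cast this
  have hint : IsIntegral ℤ α₀ := ⟨P4, P4_monic, h0⟩
  have hd := minpoly.isIntegrallyClosed_dvd hint h0
  have hm := minpoly.monic hint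
  have hirr := minpoly.irreducible hint
  exact eq_of_monic_of_associated hm P4_monic
    ((hirr.dvd_irreducible_iff_associated P4_irr).1 hd)

theorem salem_α₀ : IsSalem α₀ := by
  have h0 : aeval α₀ P4 = 0 := by
    have := aeval_α₀
    rw [aeval_real] at this
    exact_mod_cast this
  refine ⟨by linarith [α₀_gt], ⟨P4, P4_monic, h0⟩, ?_, ?_⟩
  · rw [minpoly_α₀]
    exact fun z hz hne => root_P4 hz hne
  · rw [minpoly_α₀]
    exact exists_unit

/-- the spectrum of a geometric progression -/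
noncomputable def geo (α : ℝ) : Set ℝ :=
  {t | ∃ ξ : ℝ, t = limsup (fun n : ℕ => distInt (ξ * α ^ n)) atTop}

theorem geo_eq {α : ℝ} (h : IsSalem α) : geo α = spectrum (minpoly ℤ α) 0 := by
  have hne := (minpoly.monic h.2.1).ne_zero
  have hα : aeval (α : ℂ) (minpoly ℤ α) = 0 := by
    rw [aeval_real, minpoly.aeval]
    rfl
  have hnorm : ‖(α : ℂ)‖ = α := by
    rw [Complex.norm_real, Real.norm_eq_abs, abs_of_pos (by linarith [h.1])]
  have hexp : expRoots (minpoly ℤ α) = {(α : ℂ)} := by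
    ext z
    rw [mem_expRoots hne, Finset.mem_singleton]
    constructor
    · rintro ⟨h1, h2⟩
      by_contra hc
      have := h.2.2.1 z h1 hc
      linarith
    · rintro rfl
      exact ⟨hα, by rw [hnorm]; exact h.1⟩
  ext t
  constructor
  · rintro ⟨ξ, rfl⟩
    refine ⟨fun _ => C (ξ : ℂ), ?_, ?_⟩
    · intro z _
      refine ⟨by simp, ?_⟩
      rw [map_C, Complex.conj_ofReal]
    · congr 1
      ext n
      congr 1
      unfold Spec.seq
      rw [hexp, Finset.sum_singleton, eval_C, ← Complex.ofReal_pow, ← Complex.ofReal_mul,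
        Complex.ofReal_re]
  · rintro ⟨g, hg, rfl⟩
    have h1 := hg (α : ℂ) (by rw [hexp]; exact Finset.mem_singleton_self _)
    obtain ⟨c, hc⟩ := natDegree_eq_zero.1 (Nat.le_zero.1 h1.1)
    refine ⟨c.re, ?_⟩
    congr 1
    ext n
    congr 1
    unfold Spec.seq
    rw [hexp, Finset.sum_singleton, ← hc, eval_C, ← Complex.ofReal_pow, Complex.mul_re,
      Complex.ofReal_re, Complex.ofReal_im, mul_zero, sub_zero]

theorem geo_not_closed {α : ℝ} (h : IsSalem α) : ¬ IsClosed (geo α) := by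
  rw [geo_eq h]
  have hne := (minpoly.monic h.2.1).ne_zero
  have hα : aeval (α : ℂ) (minpoly ℤ α) = 0 := by
    rw [aeval_real, minpoly.aeval]
    rfl
  refine not_closed (minpoly.monic h.2.1) (minpoly.irreducible h.2.1) ⟨(α : ℂ), ?_⟩ h.2.2.2 0
  rw [mem_expRoots hne]
  refine ⟨hα, ?_⟩
  rw [Complex.norm_real, Real.norm_eq_abs, abs_of_pos (by linarith [h.1])]
  exact h.1

end Pool.Agent.X123.Salem
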