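import Mathlib

/-!
# The shift operator on sequences and exponential polynomials
-/

set_option autoImplicit false

namespace Pool.Agent.X123.Shift

open Polynomial Filter Topology

/-- the shift operator -/
def E : Module.End ℂ (ℕ → ℂ) where
  toFun s := fun n => s (n + 1)
  map_add' _ _ := rfl
  map_smul' _ _ := rfl

theorem E_pow (j : ℕ) (s : ℕ → ℂ) (n : ℕ) : (E ^ j) s n = s (n + j) := by
  induction j generalizing n with
  | zero => simp
  | succ j ih =>
    rw [pow_succ', Module.End.mul_apply]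
    change (E ^ j) s (n + 1) = _
    rw [ih]
    congr 1
    ring

theorem aeval_E (F : ℂ[X]) (s : ℕ → ℂ) (n : ℕ) :
    (aeval E F) s n = ∑ j ∈ Finset.range (F.natDegree + 1), F.coeff j * s (n + j) := by
  rw [aeval_eq_sum_range, LinearMap.sum_apply, Finset.sum_apply]
  refine Finset.sum_congr rfl fun j _ => ?_
  rw [LinearMap.smul_apply, Pi.smul_apply, E_pow, smul_eq_mul]

/-- the sequence `q(n) z^n` -/
noncomputable def ep (q : ℂ[X]) (z : ℂ) : ℕ → ℂ := fun n => q.eval (n : ℂ) * z ^ n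

theorem ep_add (p q : ℂ[X]) (z : ℂ) : ep (p + q) z = ep p z + ep q z := by
  ext n
  simp only [ep, Pi.add_apply, eval_add]
  ring

theorem ep_zero (z : ℂ) : ep 0 z = 0 := by
  ext n
  simp [ep]

/-- image of the exponential polynomial under `E - w` -/
noncomputable def nx (w z : ℂ) (q : ℂ[X]) : ℂ[X] := C z * q.comp (X + 1) - C w * q

theorem step_ep (w z : ℂ) (q : ℂ[X]) : (aeval E (X - C w)) (ep q z) = ep (nx w z q) z := by
  ext n
  rw [map_sub, aeval_X, aeval_C, LinearMap.sub_apply, Pi.sub_apply]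
  change ep q z (n + 1) - (w • ep q z) n = _
  simp only [ep, nx, Pi.smul_apply, smul_eq_mul, eval_sub, eval_mul, eval_C, eval_comp, eval_add,
    eval_X, eval_one]
  push_cast
  ring

theorem natDegree_X1 : (X + 1 : ℂ[X]).natDegree = 1 := by
  have h : (X + 1 : ℂ[X]) = X + C 1 := by simp
  rw [h]; exact natDegree_X_add_C 1

theorem lc_X1 : (X + 1 : ℂ[X]).leadingCoeff = 1 := by
  have h : (X + 1 : ℂ[X]) = X + C 1 := by simp
  rw [h]; exact leadingCoeff_X_add_C 1

/-- `E - w` does not kill a nonzero exponential polynomial with base `z ≠ w` -/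
theorem nx_ne {w z : ℂ} (hwz : w ≠ z) {q : ℂ[X]} (hq : q ≠ 0) : nx w z q ≠ 0 := by
  intro h
  have h1 : (nx w z q).coeff q.natDegree = (z - w) * q.leadingCoeff := by
    have h2 : (q.comp (X + 1)).coeff q.natDegree = q.leadingCoeff := by
      have h3 : (q.comp (X + 1)).natDegree = q.natDegree := by
        rw [natDegree_comp, natDegree_X1, mul_one]
      have h4 : (q.comp (X + 1)).leadingCoeff = q.leadingCoeff := by
        rw [leadingCoeff_comp (by rw [natDegree_X1]; exact one_ne_zero), lc_X1, one_pow, mul_one]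
      rw [leadingCoeff, h3] at h4
      exact h4
    rw [nx, coeff_sub, coeff_C_mul, coeff_C_mul, h2, coeff_natDegree]
    ring
  rw [h, coeff_zero] at h1
  rcases mul_eq_zero.1 h1.symm with h2 | h2
  · exact hwz (sub_eq_zero.1 h2).symm
  · exact hq (leadingCoeff_eq_zero.1 h2)

/-- `E - z` lowers the degree -/
theorem nx_self_lt (z : ℂ) {q : ℂ[X]} {k : ℕ} (hq : q.natDegree < k + 1) :
    (nx z z q).natDegree < k ∨ nx z z q = 0 := by
  by_cases hq0 : q = 0
  · right; rw [hq0, nx]; simp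
  by_cases h0 : nx z z q = 0
  · exact Or.inr h0
  left
  have h3 : (q.comp (X + 1)).natDegree = q.natDegree := by
    rw [natDegree_comp, natDegree_X1, mul_one]
  have h4 : (q.comp (X + 1)).leadingCoeff = q.leadingCoeff := by
    rw [leadingCoeff_comp (by rw [natDegree_X1]; exact one_ne_zero), lc_X1, one_pow, mul_one]
  have hc0 : q.comp (X + 1) ≠ 0 := by
    intro h
    rw [h, leadingCoeff_zero] at h4
    exact hq0 (leadingCoeff_eq_zero.1 h4.symm)
  have e : nx z z q = C z * (q.comp (X + 1) - q) := by rw [nx]; ring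
  have h5 : (q.comp (X + 1) - q).degree < (q.comp (X + 1)).degree := by
    refine degree_sub_lt_left ?_ hc0 h4
    rw [degree_eq_natDegree hc0, degree_eq_natDegree hq0, h3]
  rw [e] at h0 ⊢
  have hd0 : q.comp (X + 1) - q ≠ 0 := by
    intro h
    rw [h, mul_zero] at h0
    exact h0 rfl
  rw [degree_eq_natDegree hd0, degree_eq_natDegree hc0, h3] at h5
  have h6 := natDegree_C_mul_le z (q.comp (X + 1) - q)
  have h7 : (q.comp (X + 1) - q).natDegree < q.natDegree := by exact_mod_cast h5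
  omega

theorem kill_pow (z : ℂ) (k : ℕ) (q : ℂ[X]) (hq : q.natDegree < k + 1) :
    (aeval E ((X - C z) ^ (k + 1))) (ep q z) = 0 := by
  induction k generalizing q with
  | zero =>
    rw [zero_add, pow_one, step_ep]
    rcases nx_self_lt z hq with h | h
    · omega
    · rw [h, ep_zero]
  | succ k ih =>
    rw [pow_succ, map_mul, Module.End.mul_apply, step_ep]
    rcases nx_self_lt z hq with h | h
    · exact ih _ h
    · rw [h, ep_zero, map_zero]

theorem kill {F : ℂ[X]} {z : ℂ} {k : ℕ} (hF : (X - C z) ^ (k + 1) ∣ F) {q : ℂ[X]}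
    (hq : q.natDegree ≤ k) : (aeval E F) (ep q z) = 0 := by
  obtain ⟨G, rfl⟩ := hF
  rw [mul_comm, map_mul, Module.End.mul_apply, kill_pow z k q (by omega), map_zero]

/-- a polynomial operator not vanishing at `z` does not kill `q(n) z^n` -/
theorem alive {F : ℂ[X]} {z : ℂ} (hF : F.eval z ≠ 0) {q : ℂ[X]} (hq : q ≠ 0) :
    ∃ q' : ℂ[X], q' ≠ 0 ∧ (aeval E F) (ep q z) = ep q' z := by
  have hF0 : F ≠ 0 := by
    intro h
    rw [h, eval_zero] at hF
    exact hF rfl
  have key : ∀ s : Multiset ℂ, z ∉ s → ∀ q : ℂ[X], q ≠ 0 → ∃ q' : ℂ[X], q' ≠ 0 ∧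
      (aeval E (s.map (fun w => X - C w)).prod) (ep q z) = ep q' z := by
    intro s
    induction s using Multiset.induction_on with
    | empty =>
      intro _ q hq
      exact ⟨q, hq, by simp⟩
    | cons w s ih =>
      intro hz q hq
      rw [Multiset.mem_cons, not_or] at hz
      obtain ⟨q', hq', h⟩ := ih hz.2 q hq
      refine ⟨nx w z q', nx_ne (fun h => hz.1 h.symm) hq', ?_⟩
      rw [Multiset.map_cons, Multiset.prod_cons, map_mul, Module.End.mul_apply, h, step_ep]
  have hsplit := IsAlgClosed.splits F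
  have h1 := hsplit.eq_prod_roots
  obtain ⟨q', hq', h⟩ := key F.roots (by
    intro hz
    rw [mem_roots hF0] at hz
    exact hF hz) q hq
  obtain ⟨c, hc⟩ : ∃ c, c = F.leadingCoeff := ⟨_, rfl⟩
  have hc0 : c ≠ 0 := by rw [hc]; exact leadingCoeff_ne_zero.2 hF0
  rw [← hc] at h1
  refine ⟨C c * q', mul_ne_zero (by rwa [Ne, C_eq_zero]) hq', ?_⟩
  have e : (aeval E F) (ep q z) =
      (aeval E (C c * (F.roots.map (fun w => X - C w)).prod)) (ep q z) := by rw [← h1]
  rw [e, map_mul, Module.End.mul_apply, h, aeval_C]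
  ext n
  change (c • ep q' z) n = _
  simp only [ep, Pi.smul_apply, smul_eq_mul, eval_mul, eval_C]
  ring

/-- `q(n) z^n` is unbounded for `|z| > 1`, `q ≠ 0` -/
theorem unbounded {q : ℂ[X]} (hq : q ≠ 0) {z : ℂ} (hz : 1 < ‖z‖) (B : ℝ) (n₀ : ℕ) :
    ∃ n ≥ n₀, B < ‖ep q z n‖ := by
  have h1 : ∃ c : ℝ, 0 < c ∧ ∀ᶠ n : ℕ in atTop, c ≤ ‖q.eval (n : ℂ)‖ := by
    rcases eq_or_ne q.natDegree 0 with h | h
    · rw [natDegree_eq_zero] at h
      obtain ⟨c, rfl⟩ := h
      refine ⟨‖c‖, ?_, Eventually.of_forall fun n => by rw [eval_C]⟩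
      rw [norm_pos_iff]
      intro h; rw [h, C_0] at hq; exact hq rfl
    · have h2 : 0 < q.degree := natDegree_pos_iff_degree_pos.1 (Nat.pos_of_ne_zero h)
      have h3 : Tendsto (fun n : ℕ => ‖(n : ℂ)‖) atTop atTop := by
        simp only [Complex.norm_natCast]
        exact tendsto_natCast_atTop_atTop
      have h4 := tendsto_norm_atTop q h2 h3
      exact ⟨1, one_pos, h4.eventually_ge_atTop 1⟩
  obtain ⟨c, hc, h2⟩ := h1
  have h3 : Tendsto (fun n : ℕ => c * ‖z‖ ^ n) atTop atTop :=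
    (tendsto_pow_atTop_atTop_of_one_lt hz).const_mul_atTop hc
  obtain ⟨n, hn1, hn2, hn3⟩ := (h2.and ((h3.eventually_gt_atTop B).and
    (eventually_ge_atTop n₀))).exists
  refine ⟨n, hn3, hn2.trans_le ?_⟩
  rw [ep, norm_mul, norm_pow]
  exact mul_le_mul_of_nonneg_right hn1 (by positivity)

/-- bounded sequences stay bounded under polynomial operators -/
theorem aeval_bounded (F : ℂ[X]) {s : ℕ → ℂ} {B : ℝ} {n₀ : ℕ} (h : ∀ n ≥ n₀, ‖s n‖ ≤ B)
    (n : ℕ) (hn : n₀ ≤ n) : ‖(aeval E F) s n‖ ≤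
      (∑ j ∈ Finset.range (F.natDegree + 1), ‖F.coeff j‖) * B := by
  rw [aeval_E, Finset.sum_mul]
  refine (norm_sum_le _ _).trans (Finset.sum_le_sum fun j _ => ?_)
  rw [norm_mul]
  exact mul_le_mul_of_nonneg_left (h _ (by omega)) (norm_nonneg _)

/-- a sum of exponential polynomials with bases outside the closed unit disc that is bounded
vanishes -/
theorem eq_zero_of_bounded (T : Finset ℂ) (h : ℂ → ℂ[X]) (hT : ∀ z ∈ T, 1 < ‖z‖) {B : ℝ} {n₀ : ℕ}
    (hB : ∀ n ≥ n₀, ‖∑ z ∈ T, ep (h z) z n‖ ≤ B) : ∀ z ∈ T, h z = 0 := by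
  intro z hz
  by_contra hne
  -- operator killing all the others
  obtain ⟨K, hK⟩ : ∃ K : ℕ, ∀ w ∈ T, (h w).natDegree ≤ K :=
    ⟨T.sup fun w => (h w).natDegree, fun w hw => Finset.le_sup (f := fun w => (h w).natDegree) hw⟩
  set F : ℂ[X] := ∏ w ∈ T.erase z, (X - C w) ^ (K + 1) with hF
  have hFz : F.eval z ≠ 0 := by
    rw [hF, eval_prod, Finset.prod_ne_zero_iff]
    intro w hw
    rw [eval_pow]
    apply pow_ne_zero
    rw [eval_sub, eval_X, eval_C, sub_ne_zero]
    exact fun h => (Finset.ne_of_mem_erase hw) h.symm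
  obtain ⟨q', hq', h1⟩ := alive hFz hne
  have h2 : (aeval E F) (fun n => ∑ w ∈ T, ep (h w) w n) = ep q' z := by
    have e : (fun n => ∑ w ∈ T, ep (h w) w n) = ∑ w ∈ T, ep (h w) w := by
      ext n; rw [Finset.sum_apply]
    rw [e, map_sum, ← h1, ← Finset.add_sum_erase T _ hz]
    conv_rhs => rw [← add_zero ((aeval E F) (ep (h z) z))]
    congr 1
    apply Finset.sum_eq_zero
    intro w hw
    exact kill (k := K) (Finset.dvd_prod_of_mem (fun w => (X - C w) ^ (K + 1)) hw) (hK w (Finset.mem_of_mem_erase hw))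
  obtain ⟨n, hn, h3⟩ := unbounded hq' (hT z hz)
    ((∑ j ∈ Finset.range (F.natDegree + 1), ‖F.coeff j‖) * B) n₀
  have h4 := aeval_bounded F hB n hn
  rw [h2] at h4
  linarith

end Pool.Agent.X123.Shift
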