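import Pool.Agent.X123.Shift

/-!
# Multiplicative Lagrange spectra: the lower part is countable
-/

set_option autoImplicit false

namespace Pool.Agent.X123.Spec

open Polynomial Filter Topology Pool.Agent.X123.Shift

/-- distance to the nearest integer -/
noncomputable def distInt (x : ℝ) : ℝ := |x - round x|

theorem distInt_nonneg (x : ℝ) : 0 ≤ distInt x := abs_nonneg _

theorem distInt_le (x : ℝ) : distInt x ≤ 1 / 2 := abs_sub_round x

open scoped Classical in
/-- the roots of modulus larger than `1` -/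
noncomputable def expRoots (P : ℤ[X]) : Finset ℂ :=
  (P.aroots ℂ).toFinset.filter (fun z => 1 < ‖z‖)

/-- the tuples of polynomials of degree at most `k` -/
def IsTuple (P : ℤ[X]) (k : ℕ) (g : ℂ → ℂ[X]) : Prop :=
  ∀ z ∈ expRoots P, (g z).natDegree ≤ k ∧ g (starRingEnd ℂ z) = (g z).map (starRingEnd ℂ)

/-- the sequence `x_n` -/
noncomputable def seq (P : ℤ[X]) (g : ℂ → ℂ[X]) (n : ℕ) : ℂ :=
  ∑ z ∈ expRoots P, (g z).eval (n : ℂ) * z ^ n

/-- the multiplicative Lagrange spectrum of order `k` -/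
noncomputable def spectrum (P : ℤ[X]) (k : ℕ) : Set ℝ :=
  {t | ∃ g : ℂ → ℂ[X], IsTuple P k g ∧
    t = limsup (fun n : ℕ => distInt (seq P g n).re) atTop}

/-- the length of a polynomial -/
def len (F : ℤ[X]) : ℕ := ∑ j ∈ Finset.range (F.natDegree + 1), (F.coeff j).natAbs

theorem mem_expRoots {P : ℤ[X]} (hP : P ≠ 0) {z : ℂ} :
    z ∈ expRoots P ↔ aeval z P = 0 ∧ 1 < ‖z‖ := by
  rw [expRoots, Finset.mem_filter, Multiset.mem_toFinset, mem_aroots]
  simp [hP]

theorem aeval_conj (P : ℤ[X]) (z : ℂ) : aeval (starRingEnd ℂ z) P = starRingEnd ℂ (aeval z P) := by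
  rw [aeval_def, aeval_def, hom_eval₂]
  congr 1
  exact Subsingleton.elim _ _

theorem conj_mem {P : ℤ[X]} (hP : P ≠ 0) {z : ℂ} (hz : z ∈ expRoots P) :
    starRingEnd ℂ z ∈ expRoots P := by
  rw [mem_expRoots hP] at hz ⊢
  rw [aeval_conj, hz.1, map_zero, RCLike.norm_conj]
  exact ⟨rfl, hz.2⟩

theorem seq_real {P : ℤ[X]} (hP : P ≠ 0) {k : ℕ} {g : ℂ → ℂ[X]} (hg : IsTuple P k g) (n : ℕ) :
    (((seq P g n).re : ℝ) : ℂ) = seq P g n := by
  rw [← Complex.conj_eq_iff_re]
  unfold seq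
  rw [map_sum]
  refine Finset.sum_nbij' (fun z => starRingEnd ℂ z) (fun z => starRingEnd ℂ z)
    (fun z hz => conj_mem hP hz) (fun z hz => conj_mem hP hz) (fun z _ => Complex.conj_conj z)
    (fun z _ => Complex.conj_conj z) ?_
  intro z hz
  rw [map_mul, map_pow, (hg z hz).2]
  congr 1
  rw [eval_map, ← eval₂_at_natCast]

section

variable {P : ℤ[X]} {k : ℕ}

theorem pow_dvd (hP : P ≠ 0) {z : ℂ} (hz : z ∈ expRoots P) :
    (X - C z) ^ (k + 1) ∣ (P ^ (k + 1)).map (Int.castRingHom ℂ) := by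
  rw [Polynomial.map_pow]
  apply pow_dvd_pow_of_dvd
  rw [dvd_iff_isRoot, IsRoot.def, eval_map]
  exact ((mem_expRoots hP).1 hz).1

theorem rec_C (hP : P.Monic) {g : ℂ → ℂ[X]} (hg : IsTuple P k g) (n : ℕ) :
    ∑ j ∈ Finset.range ((P ^ (k + 1)).natDegree + 1),
      ((P ^ (k + 1)).coeff j : ℂ) * seq P g (n + j) = 0 := by
  have h1 : (aeval E ((P ^ (k + 1)).map (Int.castRingHom ℂ))) (seq P g) = 0 := by
    have e : seq P g = ∑ z ∈ expRoots P, ep (g z) z := by
      ext n
      rw [Finset.sum_apply]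
      rfl
    rw [e, map_sum]
    exact Finset.sum_eq_zero fun z hz => kill (pow_dvd hP.ne_zero hz) (hg z hz).1
  have h2 := congrFun h1 n
  rw [aeval_E, (hP.pow (k + 1)).natDegree_map] at h2
  simp only [coeff_map, eq_intCast] at h2
  exact h2

theorem rec_R (hP : P.Monic) {g : ℂ → ℂ[X]} (hg : IsTuple P k g) (n : ℕ) :
    ∑ j ∈ Finset.range ((P ^ (k + 1)).natDegree + 1),
      ((P ^ (k + 1)).coeff j : ℝ) * (seq P g (n + j)).re = 0 := by
  have h := rec_C hP hg n
  have h2 := congrArg Complex.re h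
  rw [Complex.re_sum, Complex.zero_re] at h2
  rw [← h2]
  refine Finset.sum_congr rfl fun j _ => ?_
  rw [← Complex.ofReal_intCast, Complex.re_ofReal_mul]

/-- small distances force the integer recurrence -/
theorem rec_Z {F : ℤ[X]} (hF : F.Monic) {x : ℕ → ℝ}
    (hx : ∀ n, ∑ j ∈ Finset.range (F.natDegree + 1), (F.coeff j : ℝ) * x (n + j) = 0) {n₀ : ℕ}
    (hs : ∀ n ≥ n₀, distInt (x n) < 1 / len F) (n : ℕ) (hn : n₀ ≤ n) :
    ∑ j ∈ Finset.range (F.natDegree + 1), F.coeff j * round (x (n + j)) = 0 := by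
  have hlen : 1 ≤ len F := by
    unfold len
    have h1 : (F.coeff F.natDegree).natAbs ≤
        ∑ j ∈ Finset.range (F.natDegree + 1), (F.coeff j).natAbs :=
      Finset.single_le_sum (f := fun j => (F.coeff j).natAbs) (fun _ _ => Nat.zero_le _)
        (Finset.self_mem_range_succ _)
    rw [hF.coeff_natDegree] at h1
    exact h1
  have hlen' : (0 : ℝ) < len F := by exact_mod_cast hlen
  rw [← Int.abs_lt_one_iff]
  have e : ((∑ j ∈ Finset.range (F.natDegree + 1), F.coeff j * round (x (n + j)) : ℤ) : ℝ) =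
      -∑ j ∈ Finset.range (F.natDegree + 1), (F.coeff j : ℝ) * (x (n + j) - round (x (n + j))) := by
    have h0 := hx n
    push_cast
    simp only [mul_sub]
    rw [Finset.sum_sub_distrib, h0]
    ring
  have h1 : |((∑ j ∈ Finset.range (F.natDegree + 1), F.coeff j * round (x (n + j)) : ℤ) : ℝ)| < 1 := by
    rw [e, abs_neg]
    calc |∑ j ∈ Finset.range (F.natDegree + 1), (F.coeff j : ℝ) * (x (n + j) - round (x (n + j)))|
        ≤ ∑ j ∈ Finset.range (F.natDegree + 1),
          |(F.coeff j : ℝ) * (x (n + j) - round (x (n + j)))| := Finset.abs_sum_le_sum_abs _ _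
      _ < ∑ j ∈ Finset.range (F.natDegree + 1), ((F.coeff j).natAbs : ℝ) * (1 / len F) := by
          refine Finset.sum_lt_sum ?_ ?_
          · intro j _
            rw [abs_mul, Nat.cast_natAbs, Int.cast_abs]
            exact mul_le_mul_of_nonneg_left (hs (n + j) (by omega)).le (abs_nonneg _)
          · refine ⟨F.natDegree, Finset.self_mem_range_succ _, ?_⟩
            rw [hF.coeff_natDegree]
            have := hs (n + F.natDegree) (by omega)
            unfold distInt at this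
            simpa using this
      _ = 1 := by
          rw [← Finset.sum_mul, ← Nat.cast_sum]
          change ((len F : ℕ) : ℝ) * _ = 1
          field_simp
  exact_mod_cast h1

/-- a monic recurrence determines the sequence -/
theorem det_Z {F : ℤ[X]} (hF : F.Monic) {u v : ℕ → ℤ} {n₀ : ℕ}
    (hu : ∀ n ≥ n₀, ∑ j ∈ Finset.range (F.natDegree + 1), F.coeff j * u (n + j) = 0)
    (hv : ∀ n ≥ n₀, ∑ j ∈ Finset.range (F.natDegree + 1), F.coeff j * v (n + j) = 0)
    (h : ∀ i < F.natDegree, u (n₀ + i) = v (n₀ + i)) (i : ℕ) : u (n₀ + i) = v (n₀ + i) := by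
  induction i using Nat.strong_induction_on with
  | _ i ih =>
    rcases lt_or_ge i F.natDegree with hi | hi
    · exact h i hi
    · obtain ⟨m, rfl⟩ := Nat.exists_eq_add_of_le hi
      have h1 := hu (n₀ + m) (by omega)
      have h2 := hv (n₀ + m) (by omega)
      rw [Finset.sum_range_succ, hF.coeff_natDegree, one_mul] at h1 h2
      have h3 : ∑ j ∈ Finset.range F.natDegree, F.coeff j * u (n₀ + m + j) =
          ∑ j ∈ Finset.range F.natDegree, F.coeff j * v (n₀ + m + j) := by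
        refine Finset.sum_congr rfl fun j hj => ?_
        rw [Finset.mem_range] at hj
        rw [add_assoc, ih (m + j) (by omega)]
      have e : n₀ + (F.natDegree + m) = n₀ + m + F.natDegree := by ring
      rw [e]
      linarith

/-- the real sequences of the tuples -/
def seqs (P : ℤ[X]) (k : ℕ) : Set (ℕ → ℝ) :=
  {x | ∃ g : ℂ → ℂ[X], IsTuple P k g ∧ x = fun n => (seq P g n).re}

/-- two sequences of tuples at bounded distance are equal -/
theorem seqs_eq (hP : P ≠ 0) {x y : ℕ → ℝ} (hx : x ∈ seqs P k) (hy : y ∈ seqs P k) {B : ℝ} {n₀ : ℕ}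
    (h : ∀ n ≥ n₀, |x n - y n| ≤ B) : x = y := by
  obtain ⟨g, hg, rfl⟩ := hx
  obtain ⟨g', hg', rfl⟩ := hy
  have h1 := eq_zero_of_bounded (expRoots P) (fun z => g z - g' z)
    (fun z hz => ((mem_expRoots hP).1 hz).2) (B := B) (n₀ := n₀) (by
      intro n hn
      have e : ∑ z ∈ expRoots P, ep (g z - g' z) z n = seq P g n - seq P g' n := by
        unfold seq ep
        rw [← Finset.sum_sub_distrib]
        refine Finset.sum_congr rfl fun z _ => ?_
        rw [eval_sub]
        ring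
      rw [e, ← seq_real hP hg, ← seq_real hP hg', ← Complex.ofReal_sub, Complex.norm_real]
      exact h n hn)
  ext n
  unfold seq
  congr 1
  refine Finset.sum_congr rfl fun z hz => ?_
  rw [sub_eq_zero.1 (h1 z hz)]

/-- only countably many tuples have eventually small distances -/
theorem countable_seqs (hP : P.Monic) (k : ℕ) :
    {x ∈ seqs P k | ∃ n₀, ∀ n ≥ n₀, distInt (x n) < 1 / len (P ^ (k + 1))}.Countable := by
  have hF := hP.pow (k + 1)
  have e : {x ∈ seqs P k | ∃ n₀, ∀ n ≥ n₀, distInt (x n) < 1 / len (P ^ (k + 1))} ⊆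
      ⋃ n₀ : ℕ, {x ∈ seqs P k | ∀ n ≥ n₀, distInt (x n) < 1 / len (P ^ (k + 1))} := by
    rintro x ⟨h1, n₀, h2⟩
    rw [Set.mem_iUnion]
    exact ⟨n₀, h1, h2⟩
  refine Set.Countable.mono e (Set.countable_iUnion fun n₀ => ?_)
  refine Set.countable_of_injective_of_countable_image
    (f := fun x : ℕ → ℝ => fun i : Fin (P ^ (k + 1)).natDegree => round (x (n₀ + i)))
    ?_ (Set.to_countable _)
  rintro x ⟨hx, hx2⟩ y ⟨hy, hy2⟩ hxy
  have hrx : ∀ n, ∑ j ∈ Finset.range ((P ^ (k + 1)).natDegree + 1),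
      ((P ^ (k + 1)).coeff j : ℝ) * x (n + j) = 0 := by
    obtain ⟨g, hg, rfl⟩ := hx
    exact fun n => rec_R hP hg n
  have hry : ∀ n, ∑ j ∈ Finset.range ((P ^ (k + 1)).natDegree + 1),
      ((P ^ (k + 1)).coeff j : ℝ) * y (n + j) = 0 := by
    obtain ⟨g, hg, rfl⟩ := hy
    exact fun n => rec_R hP hg n
  have h1 := det_Z hF (u := fun n => round (x n)) (v := fun n => round (y n)) (n₀ := n₀)
    (fun n hn => rec_Z hF hrx hx2 n hn) (fun n hn => rec_Z hF hry hy2 n hn)
    (fun i hi => congrFun hxy ⟨i, hi⟩)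
  refine seqs_eq hP.ne_zero hx hy (B := 1) (n₀ := n₀) ?_
  intro n hn
  obtain ⟨i, rfl⟩ := Nat.exists_eq_add_of_le hn
  have h2 : round (x (n₀ + i)) = round (y (n₀ + i)) := h1 i
  have h3 := abs_sub_round (x (n₀ + i))
  have h4 := abs_sub_round (y (n₀ + i))
  rw [h2] at h3
  rw [abs_le] at h3 h4 ⊢
  constructor <;> linarith

theorem bdd (x : ℕ → ℝ) : IsBoundedUnder (· ≤ ·) atTop (fun n => distInt (x n)) :=
  isBoundedUnder_of ⟨1 / 2, fun n => distInt_le (x n)⟩

theorem cobdd (x : ℕ → ℝ) : IsCoboundedUnder (· ≤ ·) atTop (fun n => distInt (x n)) :=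
  IsBoundedUnder.isCoboundedUnder_le (isBoundedUnder_of ⟨0, fun n => distInt_nonneg (x n)⟩)

/-- the part of the spectrum below `1 / len (P ^ (k+1))` is countable -/
theorem countable_low (hP : P.Monic) (k : ℕ) :
    {t ∈ spectrum P k | t < 1 / len (P ^ (k + 1))}.Countable := by
  refine ((countable_seqs hP k).image
    (fun x : ℕ → ℝ => limsup (fun n : ℕ => distInt (x n)) atTop)).mono ?_
  rintro t ⟨⟨g, hg, rfl⟩, h⟩
  refine ⟨fun n => (seq P g n).re, ⟨⟨g, hg, rfl⟩, ?_⟩, rfl⟩
  have h1 := eventually_lt_of_limsup_lt h (bdd _)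
  exact eventually_atTop.1 h1

end

end Pool.Agent.X123.Spec
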